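import Pool.Agent.Helper10.CB.MA

/-!
# For almost all n most of the numbers C(2k,k) + p_(n-k) have no prime factor up to n^δ

Problem MP_6c0525_nt: is it true that every `n > 2` is of the form `k + m`, `0 < k < m`, such that `C(2k,k) + p_m` is prime?

## The theorem

For `3 ≤ K ≤ N` and `0 < δ ≤ 2/5` the number of pairs `(n, k)`, `n ≤ N`, `k ≤ K`, `0 < k < n/2`, such that `C(2k,k) + p_(n-k)` has a
prime factor at most `K^δ`, is at most `C exp (-2/(5δ)) N K`, with an absolute constant `C`.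

Consequence: for every `ε > 0` there is `δ > 0` such that for all `3 ≤ K ≤ N` all but at most `ε N` of the `n ≤ N` have the following
property: for all but at most `ε K` of the `k ≤ K`, `0 < k < n/2`, the number `C(2k,k) + p_(n-k)` has no prime factor up to `K^δ`.
With `K = N`: for almost all `n`, the numbers `C(2k,k) + p_(n-k)`, `0 < k < n/2`, have no prime factor up to `n^δ`, up to an
arbitrarily small proportion of the `k` if `δ` is small.  (A random integer has no prime factor up to `n^δ` with the probability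
`≍ 1/(δ log n)` only.)

## Proof

Let `q ≤ K^δ` be a prime factor of `C(2k,k) + p_m`, `m = n - k > k`.  It is odd.  If `q` divides `C(2k,k)` then `q = p_m`, and there are
at most `K^(2δ)` such pairs.  If `q` does not divide `C(2k,k)` then all digits of `k` to the base `q` are at most `(q-1)/2` (Lucas), so there
are at most `2K (2/3)^D` such `k ≤ K`, `D = [log K/log q]`, and for each of them `p_m` lies in one residue class modulo `q`, which
holds for at most `C N/q` of the `m ≤ N` (Brun-Titchmarsh, proved here with an absolute constant).  The sum over `q ≤ K^δ` is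
estimated with `∑_(q ≤ y) (log q)/q ≤ C log y`.
-/

set_option autoImplicit false

namespace Pool.Agent.Helper48.AA.Old.NoSmallFactors

open Finset

open scoped Classical in
theorem result :
    (∃ C : ℝ, 0 < C ∧ ∀ (N K : ℕ) (δ : ℝ), 3 ≤ K → K ≤ N → 0 < δ → δ ≤ 2 / 5 →
      ((((Icc 1 N ×ˢ Icc 1 K).filter (fun a => 2 * a.2 < a.1 ∧ ∃ q : ℕ, q.Prime ∧ (q : ℝ) ≤ (K : ℝ) ^ δ ∧
        q ∣ Nat.centralBinom a.2 + Nat.nth Nat.Prime (a.1 - a.2 - 1))).card : ℕ) : ℝ) ≤
        C * Real.exp (-(2 / (5 * δ))) * (N * K)) ∧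
    ∀ ε : ℝ, 0 < ε → ∃ δ : ℝ, 0 < δ ∧ ∀ N K : ℕ, 3 ≤ K → K ≤ N →
      ((((Icc 1 N).filter (fun n => ε * K ≤
        ((((Icc 1 K).filter (fun k => 2 * k < n ∧ ∃ q : ℕ, q.Prime ∧ (q : ℝ) ≤ (K : ℝ) ^ δ ∧
          q ∣ Nat.centralBinom k + Nat.nth Nat.Prime (n - k - 1))).card : ℕ) : ℝ))).card : ℕ) : ℝ) ≤
        ε * N := by
  refine ⟨?_, ?_⟩
  · obtain ⟨C, hC, h⟩ := Pool.Agent.Helper10.CB.a_pairs
    refine ⟨C, hC, fun N K δ h1 h2 h3 h4 => ?_⟩
    refine le_trans (le_of_eq ?_) (h N K δ h1 h2 h3 h4)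
    congr 2
    ext a
    simp only [mem_filter, mem_product, mem_Icc]
    constructor
    · rintro ⟨⟨g1, g2⟩, g3, g4⟩
      exact ⟨⟨g1, g2⟩, by omega, g3, g4⟩
    · rintro ⟨⟨g1, g2⟩, g3, g4, g5⟩
      exact ⟨⟨g1, g2⟩, g4, g5⟩
  · intro ε hε
    obtain ⟨δ, hδ, h⟩ := Pool.Agent.Helper10.CB.a_almost ε hε
    refine ⟨δ, hδ, fun N K h1 h2 => ?_⟩
    refine le_trans (le_of_eq ?_) (h N K h1 h2)
    have e : ∀ n : ℕ, (Icc 1 K).filter (fun k => 2 * k < n ∧ ∃ q : ℕ, q.Prime ∧ (q : ℝ) ≤ (K : ℝ) ^ δ ∧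
          q ∣ Nat.centralBinom k + Nat.nth Nat.Prime (n - k - 1)) =
        (Icc 1 K).filter (fun k => Pool.Agent.Helper10.CB.Dv ((K : ℝ) ^ δ) n k) := by
      intro n
      ext k
      simp only [mem_filter, mem_Icc]
      constructor
      · rintro ⟨g1, g2, g3⟩
        exact ⟨g1, by omega, g2, g3⟩
      · rintro ⟨g1, g2, g3, g4⟩
        exact ⟨g1, g3, g4⟩
    congr 2
    ext n
    rw [mem_filter, mem_filter, e n]

end Pool.Agent.Helper48.AA.Old.NoSmallFactors
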